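import Pool.Agent.W313.HB.Stm5

set_option autoImplicit false

namespace Pool.Agent.W756.HB

open Pool.Agent.W313.HB
open Pool.Agent.W313.BMX (Splits)

theorem aeval_eval {σ K : Type} [Field K] (P : MvPolynomial σ ℤ) (x : σ → K) :
    MvPolynomial.aeval x P = MvPolynomial.eval x (MvPolynomial.map (Int.castRingHom K) P) := by
  rw [MvPolynomial.eval_map, MvPolynomial.aeval_def]
  congr 1

theorem cont_aeval {n : ℕ} (P : MvPolynomial (Fin (n + 1)) ℤ) :
    Continuous (fun x : Fin (n + 1) → ℝ => MvPolynomial.aeval x P) := by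
  simp_rw [aeval_eval]
  exact MvPolynomial.continuous_eval _

theorem splits_ne {K : Type} [Field K] [CharZero K] {A B D a u v w : K} (hA : A ≠ 0) (ha : a ≠ 0)
    (hne : u ≠ 0 ∨ v ≠ 0 ∨ w ≠ 0) (heq : w ^ 2 = a * (A * u ^ 2 + B * (u * v) + D * v ^ 2)) :
    Splits (a * A) (B ^ 2 - A * (4 * D)) := by
  refine ⟨2 * w, a * v, a * (2 * A * u + B * v), ?_, ?_⟩
  · by_contra hcon
    push Not at hcon
    obtain ⟨h1, h2, h3⟩ := hcon
    have hw : w = 0 := by simpa using h1
    have hv : v = 0 := by simpa [ha] using h2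
    have hu : u = 0 := by simpa [ha, hv, hA] using h3
    rcases hne with h | h | h
    · exact h hu
    · exact h hv
    · exact h hw
  · linear_combination (-4 * a * A) * heq

theorem exists_near {n : ℕ} (A : MvPolynomial (Fin (n + 1)) ℤ) (hA : A ≠ 0)
    (U : Set (Fin (n + 1) → ℝ)) (hU : IsOpen U) (hne : U.Nonempty) :
    ∃ x ∈ U, MvPolynomial.aeval x A ≠ 0 := by
  obtain ⟨x, hx⟩ := hne
  obtain ⟨ε, hε, hb⟩ := Metric.isOpen_iff.1 hU x hx
  by_contra hcon
  push Not at hcon
  have h0 : MvPolynomial.map (Int.castRingHom ℝ) A = 0 := by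
    refine MvPolynomial.funext_set (fun i => Metric.ball (x i) ε) (fun i => ?_) (fun y hy => ?_)
    · rw [Real.ball_eq_Ioo]
      exact Set.Ioo_infinite (by linarith)
    · rw [← aeval_eval, map_zero]
      apply hcon
      apply hb
      rw [ball_pi x hε]
      exact hy
  apply hA
  apply MvPolynomial.map_injective (Int.castRingHom ℝ) (by exact Int.cast_injective)
  rw [h0, map_zero]

theorem pertr_ : S_PERTR := by
  intro n A B D hA a ha Ω hΩ hpt
  obtain ⟨x, hx, hΔ, u, v, w, hne, heq⟩ := hpt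
  have haR : (a : ℝ) ≠ 0 := by exact_mod_cast ha
  have hev : ∀ y : Fin (n + 1) → ℝ, MvPolynomial.aeval y (B ^ 2 - A * (4 * D)) =
      MvPolynomial.aeval y B ^ 2 - MvPolynomial.aeval y A * (4 * MvPolynomial.aeval y D) := by
    intro y
    simp [map_sub, map_mul, map_pow]
  have hev2 : MvPolynomial.aeval x (B ^ 2 - 4 * A * D) =
      MvPolynomial.aeval x B ^ 2 - MvPolynomial.aeval x A * (4 * MvPolynomial.aeval x D) := by
    simp only [map_sub, map_mul, map_pow, map_ofNat]
    ring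
  by_cases hA0 : MvPolynomial.aeval x A = 0
  · have hpos : 0 < MvPolynomial.aeval x (B ^ 2 - A * (4 * D)) := by
      rw [hev x, ← hev2]
      rw [hev2, hA0, zero_mul, sub_zero] at hΔ ⊢
      positivity
    obtain ⟨y, hy, hyA⟩ := exists_near A hA
      (Ω ∩ {y | 0 < MvPolynomial.aeval y (B ^ 2 - A * (4 * D))})
      (hΩ.inter (isOpen_lt continuous_const (cont_aeval _))) ⟨x, hx, hpos⟩
    refine ⟨y, hy.1, hyA, hy.2.ne', 0, 1, Real.sqrt (MvPolynomial.aeval y (B ^ 2 - A * (4 * D))),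
      Or.inr (Or.inl one_ne_zero), ?_⟩
    rw [Real.sq_sqrt hy.2.le]
    simp
  · refine ⟨x, hx, hA0, ?_, ?_⟩
    · rw [hev x, ← hev2]; exact hΔ
    · rw [hev x]
      have := splits_ne hA0 haR hne heq
      simpa using this

end Pool.Agent.W756.HB
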